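import Pool.Agent.H329R3.NU.Stmts

/-! Formulas for the perturbed density and flux. -/

open MeasureTheory Set Filter Topology

namespace Pool.Agent.H630R3.NU

open Pool.Agent.H329R3.NU

theorem line {F : ℝ × ℝ → ℝ} {z : ℝ × ℝ} (hF : DifferentiableAt ℝ F z) (v : ℝ × ℝ) :
    HasDerivAt (fun s : ℝ => F (z + s • v)) (fderiv ℝ F z v) 0 :=
  hF.hasFDerivAt.hasLineDerivAt v

theorem pert_contDiff {a h : ℝ × ℝ → ℝ} (hh : ContDiff ℝ 2 h) (ha : ContDiff ℝ 2 a) (n : ℕ) :
    ContDiff ℝ 2 (pert a h n) := by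
  unfold pert
  have h1 : ContDiff ℝ 2 (fun z : ℝ × ℝ => (n : ℝ) * (z.1 ^ 3 / 3 + h z)) := by fun_prop
  have h2 : ContDiff ℝ 2 (fun z : ℝ × ℝ => Real.sin ((n : ℝ) * (z.1 ^ 3 / 3 + h z))) :=
    Real.contDiff_sin.comp h1
  exact hh.add ((ha.mul h2).div_const _)

theorem fderiv_pert {a h : ℝ × ℝ → ℝ} (hh : ContDiff ℝ 2 h) (ha : ContDiff ℝ 2 a) {n : ℕ}
    (hn : 0 < n) (z v : ℝ × ℝ) :
    fderiv ℝ (pert a h n) z v = fderiv ℝ h z v +
      fderiv ℝ a z v * Real.sin (n * (z.1 ^ 3 / 3 + h z)) / n +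
      a z * Real.cos (n * (z.1 ^ 3 / 3 + h z)) * (z.1 ^ 2 * v.1 + fderiv ℝ h z v) := by
  have hn' : (n : ℝ) ≠ 0 := by exact_mod_cast hn.ne'
  have h1 := line (z := z) ((pert_contDiff hh ha n).differentiable (by norm_num) z) v
  have hH := line (z := z) (hh.differentiable (by norm_num) z) v
  have hA := line (z := z) (ha.differentiable (by norm_num) z) v
  have hP : HasDerivAt (fun s : ℝ => (z + s • v).1) v.1 0 := by
    have : (fun s : ℝ => (z + s • v).1) = fun s => z.1 + s * v.1 := by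
      funext s
      simp
    rw [this]
    simpa using ((hasDerivAt_id (0 : ℝ)).mul_const v.1).const_add z.1
  have hPsi : HasDerivAt (fun s : ℝ => (n : ℝ) * ((z + s • v).1 ^ 3 / 3 + h (z + s • v)))
      ((n : ℝ) * (z.1 ^ 2 * v.1 + fderiv ℝ h z v)) 0 := by
    have h4 := (((hP.pow 3).div_const 3).add hH).const_mul (n : ℝ)
    have h5 : (n : ℝ) * ((3 : ℕ) * (z + (0 : ℝ) • v).1 ^ (3 - 1) * v.1 / 3 + fderiv ℝ h z v) =
        (n : ℝ) * (z.1 ^ 2 * v.1 + fderiv ℝ h z v) := by
      simp only [zero_smul, add_zero]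
      push_cast
      ring
    rw [h5] at h4
    exact h4
  have h2 := hH.add ((hA.mul hPsi.sin).div_const (n : ℝ))
  have h3 := h1.unique h2
  rw [h3]
  simp only [zero_smul, add_zero]
  field_simp
  ring

theorem bdd_aux {a g : ℝ × ℝ → ℝ} (hc : HasCompactSupport a) (hs : tsupport a ⊆ Om)
    (hg : Continuous g) (h0 : ∀ z, z ∉ tsupport a → g z = 0) (k : ℕ) :
    ∃ C : ℝ, 0 ≤ C ∧ ∀ z, |g z / z.1 ^ k| ≤ C := by
  have hcont : ContinuousOn (fun z : ℝ × ℝ => g z / z.1 ^ k) (tsupport a) := by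
    refine hg.continuousOn.div (continuous_fst.pow k).continuousOn fun z hz => ?_
    have : 0 < z.1 := (hs hz).1.1
    positivity
  obtain ⟨C, hC⟩ := hc.isCompact.exists_bound_of_continuousOn hcont
  refine ⟨max C 0, le_max_right _ _, fun z => ?_⟩
  by_cases hz : z ∈ tsupport a
  · have := hC z hz
    rw [Real.norm_eq_abs] at this
    exact this.trans (le_max_left _ _)
  · rw [h0 z hz]
    simp

theorem pertForm : PertForm := by
  intro κ h a hh hhc hhs ha hac has
  have hz0 : ∀ z, z ∉ tsupport h ∪ tsupport a → ∀ n : ℕ, pert a h n z = 0 := by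
    intro z hz n
    rw [Set.mem_union, not_or] at hz
    unfold pert
    rw [image_eq_zero_of_notMem_tsupport hz.1, image_eq_zero_of_notMem_tsupport hz.2]
    simp
  refine ⟨fun n hn => ⟨pert_contDiff hh ha n, ?_, ?_⟩, ?_⟩
  · exact HasCompactSupport.intro' (hhc.isCompact.union hac.isCompact)
      ((isClosed_tsupport h).union (isClosed_tsupport a)) fun z hz => hz0 z hz n
  · refine (closure_minimal ?_ ((isClosed_tsupport h).union (isClosed_tsupport a))).trans
      (Set.union_subset hhs has)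
    intro z hz
    by_contra hcon
    exact hz (hz0 z hcon n)
  · have hy0 : Continuous (dy a) :=
      (ha.continuous_fderiv (by norm_num)).clm_apply continuous_const
    have ht0 : Continuous (dt a) :=
      (ha.continuous_fderiv (by norm_num)).clm_apply continuous_const
    have hf0 : ∀ z, z ∉ tsupport a → fderiv ℝ a z = 0 := fun z hz =>
      fderiv_of_notMem_tsupport ℝ hz
    obtain ⟨C0, hC0, hb0⟩ := bdd_aux hac has ha.continuous
      (fun z hz => image_eq_zero_of_notMem_tsupport hz) 0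
    obtain ⟨C1, hC1, hb1⟩ := bdd_aux hac has hy0 (fun z hz => by simp [dy, hf0 z hz]) 2
    obtain ⟨C2, hC2, hb2⟩ := bdd_aux hac has ht0 (fun z hz => by simp [dt, hf0 z hz]) 3
    refine ⟨C0 + C1 + |κ| * C1 + C2, by positivity, fun n hn => ⟨fun z => ?_, fun z hz => ?_⟩⟩
    · have hn' : (0 : ℝ) < n := by exact_mod_cast hn
      have h1 : pert a h n z - h z = a z * Real.sin (n * (z.1 ^ 3 / 3 + h z)) / n := by
        unfold pert
        ring
      have h2 := hb0 z
      rw [pow_zero, div_one] at h2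
      rw [h1, abs_div, abs_mul, abs_of_pos hn']
      gcongr
      have h3 := Real.abs_sin_le_one (n * (z.1 ^ 3 / 3 + h z))
      have h4 : |a z| * |Real.sin (n * (z.1 ^ 3 / 3 + h z))| ≤ C0 * 1 :=
        mul_le_mul h2 h3 (abs_nonneg _) hC0
      have h5 : 0 ≤ |κ| * C1 := by positivity
      linarith
    · have hn' : (0 : ℝ) < n := by exact_mod_cast hn
      have hz1 : 0 < z.1 := hz.1.1
      have h3 := Real.abs_sin_le_one (n * (z.1 ^ 3 / 3 + h z))
      have hW : W (pert a h n) z - (1 + a z * Real.cos (n * (z.1 ^ 3 / 3 + h z))) * W h z =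
          dy a z / z.1 ^ 2 * Real.sin (n * (z.1 ^ 3 / 3 + h z)) / n := by
        unfold W dy
        rw [fderiv_pert hh ha hn]
        field_simp
        ring
      have hF : Fl κ (pert a h n) z -
          (1 + a z * Real.cos (n * (z.1 ^ 3 / 3 + h z))) * Fl κ h z =
          κ * (dy a z / z.1 ^ 2 * Real.sin (n * (z.1 ^ 3 / 3 + h z)) / n) -
          dt a z / z.1 ^ 3 * Real.sin (n * (z.1 ^ 3 / 3 + h z)) / n := by
        rw [← hW]
        unfold Fl dt
        rw [fderiv_pert hh ha hn]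
        field_simp
        ring
      have hWb : |dy a z / z.1 ^ 2 * Real.sin (n * (z.1 ^ 3 / 3 + h z)) / n| ≤ C1 / n := by
        rw [abs_div, abs_mul, abs_of_pos hn']
        gcongr
        have := mul_le_mul (hb1 z) h3 (abs_nonneg _) hC1
        linarith
      have hTb : |dt a z / z.1 ^ 3 * Real.sin (n * (z.1 ^ 3 / 3 + h z)) / n| ≤ C2 / n := by
        rw [abs_div, abs_mul, abs_of_pos hn']
        gcongr
        have := mul_le_mul (hb2 z) h3 (abs_nonneg _) hC2
        linarith
      constructor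
      · rw [hW]
        refine hWb.trans ?_
        gcongr
        have h5 : 0 ≤ |κ| * C1 := by positivity
        linarith
      · rw [hF]
        refine (abs_sub _ _).trans ?_
        rw [abs_mul]
        have h6 : |κ| * |dy a z / z.1 ^ 2 * Real.sin (n * (z.1 ^ 3 / 3 + h z)) / n| ≤
            |κ| * (C1 / n) := mul_le_mul_of_nonneg_left hWb (abs_nonneg _)
        have h7 : |κ| * (C1 / n) + C2 / n ≤ (C0 + C1 + |κ| * C1 + C2) / n := by
          rw [← mul_div_assoc, ← add_div]
          gcongr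
          linarith
        linarith

theorem taskPertForm : TaskPertForm := pertForm

end Pool.Agent.H630R3.NU
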